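import Pool.Agent.H310.Three.Words

/-!
# Eclipse sequences of hyperbolic three-body solutions are uniformly bounded

For every choice of positive masses there is a bound `N` for the length of the reduced eclipse
sequence of every hyperbolic solution with finitely many eclipses (of whatever positive energy).
So the answer to Q2 is yes (for all masses, not only equal ones), and the answer to Q1 is no, for
every choice of masses: some reduced word, for instance any reduced word longer than `N`, is the
reduced eclipse sequence of no hyperbolic solution.

How the definitions (in `Pool/Agent/H310/Three/Defs.lean`) match the problem: the plane is `ℂ`, the
bodies are labelled by `Fin 3`; `IsHyperbolic m q` is a collision-free solution of Newton's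
equations on the whole line with centre of mass zero, positive energy, and normalised configuration
`q / ‖q‖` (mass norm) having collision-free limits at both ends; `IsEclipseSequence q w`: the
instants at which the bodies are collinear are finitely many and `w` lists the labels of the middle
bodies in time order; `IsReducedEclipseSequence q r`: `r` has no stutter and comes from the eclipse
sequence by repeated deletion of stutters.

Outline of the proof. Let `I` be the moment of inertia, `R = √I`, `G = I' / 2`, `U` the potential,
`E` the energy; `I` is strictly convex, so `G` vanishes at exactly one time, and by time reversal it
is enough to look at the later, outgoing half.
(1) Non-capture: since no pair collapses relative to `R` at infinity, every pair has, at every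
outgoing time, relative specific energy at least `-C / R`; otherwise the pair would stay bound for
ever. Hence `G ^ 2 ≤ C R (E R + 1)`, and a pair at distance at most `δ R` is only in fast passage:
its direction turns by a bounded amount while it stays close.
(2) While `E R ≤ 1` the function `G / √R` is increasing and bounded, and grows at least like the
integral of `(I K - G ^ 2) / (2 R ^ (5/2))`, `K` being twice the kinetic energy. While `E R ≥ 1` the
total movement of the shape away from close encounters is bounded.
(3) Between an eclipse of body `a` and the next eclipse with another label the angle at `a` passes
through 120 degrees. There the configuration is not central: one body feels a definite torque, so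
the shape must move a definite amount within a time `κ R ^ (3/2)`, at a definite cost for the
clocks of (2). If instead a pair is close at that time, then either it separates (again at a
definite cost) or it stays close, and only a bounded number of changes of label can occur.
-/

namespace Pool.Agent.Results.MP_877ce7_an.BoundedEclipses

open Pool.Agent.H310.ThreeBody

/-- For all positive masses the reduced eclipse sequences of hyperbolic solutions have uniformly
bounded length; in particular some reduced word is not realised. -/
theorem result (m : Fin 3 → ℝ) (hm : ∀ a, 0 < m a) :
    (∃ N : ℕ, ∀ q : ℝ → Fin 3 → ℂ, IsHyperbolic m q →
      ∀ r : List (Fin 3), IsReducedEclipseSequence q r → r.length ≤ N) ∧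
    (∃ r : List (Fin 3), Reduced r ∧
      ∀ q : ℝ → Fin 3 → ℂ, IsHyperbolic m q → ¬ IsReducedEclipseSequence q r) := by
  obtain ⟨N, hN⟩ := length_bound hm
  refine ⟨⟨N, hN⟩, alt (N + 1), reduced_alt _, fun q hq h => ?_⟩
  have := hN q hq _ h
  rw [length_alt] at this
  omega

end Pool.Agent.Results.MP_877ce7_an.BoundedEclipses
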